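import Pool.Agent.Helper69.MD.Defs

/-!
# Volumes of tetrahedra and the largest tetrahedron in a convex body
-/

set_option autoImplicit false

namespace Pool.Agent.Helper95.ML

open MeasureTheory Set Filter Topology
open Pool.Agent.Helper69.MD (E3 IsConvexBody)
open scoped ENNReal

/-- the matrix with the rows `(1, p i)` -/
def bm (p : Fin 4 → E3) : Matrix (Fin 4) (Fin 4) ℝ := Matrix.of fun i => ![1, p i 0, p i 1, p i 2]

/-- six times the signed volume -/
noncomputable def Dt (p : Fin 4 → E3) : ℝ := (bm p).det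

/-- the linear map with given values on the standard basis -/
noncomputable def linOf (v : Fin 3 → E3) : E3 →ₗ[ℝ] E3 := (EuclideanSpace.basisFun (Fin 3) ℝ).toBasis.constr ℝ v

theorem linOf_apply (v : Fin 3 → E3) (x : E3) : linOf v x = ∑ i, x i • v i := by
  unfold linOf
  rw [Module.Basis.constr_apply_fintype]
  refine Finset.sum_congr rfl (fun i _ => ?_)
  simp

theorem det_linOf (v : Fin 3 → E3) : LinearMap.det (linOf v) = Matrix.det (Matrix.of fun i j => v i j) := by
  rw [← LinearMap.det_toMatrix (EuclideanSpace.basisFun (Fin 3) ℝ).toBasis, ← Matrix.det_transpose]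
  congr 1
  ext i j
  rw [Matrix.transpose_apply, LinearMap.toMatrix_apply]
  unfold linOf
  rw [Module.Basis.constr_basis]
  simp

theorem Dt_eq (p : Fin 4 → E3) : Dt p = Matrix.det (Matrix.of fun i j => (p (Fin.succ i) - p 0) j : Matrix (Fin 3) (Fin 3) ℝ) := by
  unfold Dt
  rw [Matrix.det_succ_row_zero, Fin.sum_univ_four, Matrix.det_fin_three, Matrix.det_fin_three, Matrix.det_fin_three,
    Matrix.det_fin_three, Matrix.det_fin_three]
  simp [bm, Fin.succAbove]
  ring

/-- the vertices of the standard simplex -/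
noncomputable def sd : Fin 4 → E3 := Fin.cons 0 fun i => EuclideanSpace.single i (1 : ℝ)

theorem isCompact_hull (p : Fin 4 → E3) : IsCompact (convexHull ℝ (range p)) :=
  (Set.finite_range p).isCompact_convexHull ℝ

theorem vol_hull_std (p : Fin 4 → E3) :
    volume (convexHull ℝ (range p)) = ENNReal.ofReal |Dt p| * volume (convexHull ℝ (range sd)) := by
  set u : Fin 3 → E3 := fun i => p (Fin.succ i) - p 0 with hu
  set A : E3 →ᵃ[ℝ] E3 := (linOf u).toAffineMap + AffineMap.const ℝ E3 (p 0) with hA
  have hAx : ∀ x, A x = linOf u x + p 0 := fun x => rfl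
  have hAs : ∀ i, A (sd i) = p i := by
    intro i
    rw [hAx, linOf_apply]
    refine Fin.cases ?_ (fun k => ?_) i
    · simp [sd]
    · have h1 : ∑ j, (sd (Fin.succ k)) j • u j = u k := by
        rw [Finset.sum_eq_single k]
        · simp [sd]
        · intro j _ hj
          simp [sd, hj]
        · intro h
          exact absurd (Finset.mem_univ _) h
      rw [h1, hu]
      simp
  have h1 : range p = A '' range sd := by
    rw [← range_comp]
    congr 1
    funext i
    exact (hAs i).symm
  rw [h1, ← AffineMap.image_convexHull]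
  have h2 : A '' convexHull ℝ (range sd) = (fun y => y + p 0) '' (linOf u '' convexHull ℝ (range sd)) := by
    rw [image_image]
    rfl
  rw [h2, image_add_right, measure_preimage_add_right, Measure.addHaar_image_linearMap, det_linOf, Dt_eq]

/-- barycentric coordinates and determinants -/
theorem bm_eq (b : AffineBasis (Fin 4) ℝ E3) (p : Fin 4 → E3) : bm p = b.toMatrix p * bm b := by
  ext i j
  rw [Matrix.mul_apply]
  have h1 : ∀ k : Fin 3, p i k = ∑ l, b.coord l (p i) * b l k := by
    intro k
    have h2 := congrArg (fun x : E3 => x k) (b.linear_combination_coord_eq_self (p i))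
    have h3 : (∑ l, b.coord l (p i) • b l) k = ∑ l, b.coord l (p i) * b l k := by
      rw [WithLp.ofLp_sum, Finset.sum_apply]
      rfl
    rw [← h3]
    exact h2.symm
  simp only [AffineBasis.toMatrix_apply]
  fin_cases j
  · simp [bm, b.sum_coord_apply_eq_one]
  · simpa [bm] using h1 0
  · simpa [bm] using h1 1
  · simpa [bm] using h1 2

theorem Dt_mul (b : AffineBasis (Fin 4) ℝ E3) (p : Fin 4 → E3) : Dt p = (b.toMatrix p).det * Dt b := by
  unfold Dt
  rw [bm_eq b p, Matrix.det_mul]

theorem vol_pos (b : AffineBasis (Fin 4) ℝ E3) : 0 < volume (convexHull ℝ (range b)) := by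
  have h1 : (interior (convexHull ℝ (range b))).Nonempty :=
    ⟨_, b.centroid_mem_interior_convexHull⟩
  exact Measure.measure_pos_of_nonempty_interior _ h1

theorem vol_lt_top (p : Fin 4 → E3) : volume (convexHull ℝ (range p)) < ∞ := (isCompact_hull p).measure_lt_top

/-- **Volume base**: volumes of tetrahedra in barycentric coordinates. -/
theorem vol_hull (b : AffineBasis (Fin 4) ℝ E3) (p : Fin 4 → E3) :
    volume (convexHull ℝ (range p)) = ENNReal.ofReal |(b.toMatrix p).det| * volume (convexHull ℝ (range b)) := by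
  rw [vol_hull_std p, vol_hull_std b, Dt_mul b p, abs_mul, ENNReal.ofReal_mul (abs_nonneg _), mul_assoc]

/-- one vertex replaced -/
theorem det_update (b : AffineBasis (Fin 4) ℝ E3) (i : Fin 4) (x : E3) :
    (b.toMatrix (Function.update b i x)).det = b.coord i x := by
  have h1 : b.toMatrix (Function.update b i x) = (1 : Matrix (Fin 4) (Fin 4) ℝ).updateRow i (fun j => b.coord j x) := by
    ext k j
    rw [AffineBasis.toMatrix_apply]
    by_cases h : k = i
    · rw [h, Function.update_self, Matrix.updateRow_self]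
    · rw [Function.update_of_ne h, Matrix.updateRow_ne h, AffineBasis.coord_apply, Matrix.one_apply]
      simp only [eq_comm]
  rw [h1, ← Matrix.cramer_transpose_apply, Matrix.transpose_one, Matrix.cramer_one]
  rfl

theorem affineIndependent_of_Dt {p : Fin 4 → E3} (h : Dt p ≠ 0) : AffineIndependent ℝ p := by
  rw [affineIndependent_iff_of_fintype]
  intro w hw hw2
  rw [Finset.weightedVSub_eq_linear_combination (s := Finset.univ) hw] at hw2
  have h1 : Matrix.vecMul w (bm p) = 0 := by
    funext j
    have h2 : ∀ k : Fin 3, ∑ i, w i * p i k = 0 := by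
      intro k
      have h3 := congrArg (fun x : E3 => x k) hw2
      simpa using h3
    simp only [Matrix.vecMul, dotProduct, Pi.zero_apply]
    fin_cases j
    · simpa [bm] using hw
    · simpa [bm] using h2 0
    · simpa [bm] using h2 1
    · simpa [bm] using h2 2
  have h2 := Matrix.eq_zero_of_vecMul_eq_zero h h1
  exact fun i => congrFun h2 i

theorem continuous_Dt : Continuous Dt := by
  unfold Dt
  apply Continuous.matrix_det
  refine continuous_matrix fun i j => ?_
  fin_cases j
  · exact continuous_const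
  · exact (EuclideanSpace.proj (0 : Fin 3)).continuous.comp (continuous_apply i)
  · exact (EuclideanSpace.proj (1 : Fin 3)).continuous.comp (continuous_apply i)
  · exact (EuclideanSpace.proj (2 : Fin 3)).continuous.comp (continuous_apply i)

theorem exists_Dt_ne {K : Set E3} (hK : IsConvexBody K) : ∃ p : Fin 4 → E3, (∀ i, p i ∈ K) ∧ Dt p ≠ 0 := by
  obtain ⟨x0, hx0⟩ := hK.interior_nonempty
  obtain ⟨r, hr, hball⟩ := Metric.isOpen_iff.1 isOpen_interior x0 hx0
  refine ⟨fun i => x0 + (r / 2) • sd i, fun i => ?_, ?_⟩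
  · apply interior_subset
    apply hball
    rw [Metric.mem_ball, dist_eq_norm, add_sub_cancel_left, norm_smul, Real.norm_of_nonneg (by positivity)]
    have h1 : ‖sd i‖ ≤ 1 := by
      refine Fin.cases ?_ (fun k => ?_) i
      · simp [sd]
      · simp [sd]
    have h2 := mul_le_mul_of_nonneg_left h1 (by positivity : 0 ≤ r / 2)
    linarith
  · rw [Dt_eq, Matrix.det_fin_three]
    simp [sd]
    positivity

/-- **The largest tetrahedron** in a convex body. -/
theorem exists_max {K : Set E3} (hK : IsConvexBody K) : ∃ b : AffineBasis (Fin 4) ℝ E3, (∀ i, b i ∈ K) ∧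
    (∀ x ∈ K, ∀ i, |b.coord i x| ≤ 1) ∧
    ∀ p : Fin 4 → E3, (∀ i, p i ∈ K) → volume (convexHull ℝ (range p)) ≤ volume (convexHull ℝ (range b)) := by
  obtain ⟨p0, hp0, hp0'⟩ := exists_Dt_ne hK
  have hcomp : IsCompact (Set.pi univ fun _ : Fin 4 => K) := isCompact_univ_pi fun _ => hK.isCompact
  obtain ⟨v, hv, hmax⟩ := hcomp.exists_isMaxOn ⟨p0, fun i _ => hp0 i⟩ (continuous_abs.comp continuous_Dt).continuousOn
  have hvK : ∀ i, v i ∈ K := fun i => hv i (mem_univ i)
  have hle : ∀ p : Fin 4 → E3, (∀ i, p i ∈ K) → |Dt p| ≤ |Dt v| := fun p hp => hmax (fun i _ => hp i)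
  have hv0 : Dt v ≠ 0 := by
    have h1 := hle p0 hp0
    have h2 := abs_pos.2 hp0'
    exact abs_pos.1 (by linarith)
  have hind := affineIndependent_of_Dt hv0
  have htot : affineSpan ℝ (range v) = ⊤ := by
    rw [hind.affineSpan_eq_top_iff_card_eq_finrank_add_one]
    simp
  set b : AffineBasis (Fin 4) ℝ E3 := ⟨v, hind, htot⟩ with hb
  have hbv : (b : Fin 4 → E3) = v := rfl
  refine ⟨b, fun i => hvK i, fun x hx i => ?_, fun p hp => ?_⟩
  · have h1 := hle (Function.update b i x) (fun k => by
      by_cases h : k = i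
      · rw [h, Function.update_self]; exact hx
      · rw [Function.update_of_ne h]; exact hvK k)
    rw [Dt_mul b, det_update, abs_mul, hbv] at h1
    have h2 := abs_pos.2 hv0
    by_contra hcon
    push Not at hcon
    have := mul_lt_mul_of_pos_right hcon h2
    linarith
  · rw [vol_hull_std p, vol_hull_std b, hbv]
    exact mul_le_mul_left (ENNReal.ofReal_le_ofReal (hle p hp)) _

theorem coord_affine (b : AffineBasis (Fin 4) ℝ E3) (i : Fin 4) : ∃ (l : E3 →L[ℝ] ℝ) (c : ℝ), ∀ x, b.coord i x = l x + c := by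
  refine ⟨LinearMap.toContinuousLinearMap (b.coord i).linear, b.coord i 0, fun x => ?_⟩
  have h1 := (b.coord i).map_vadd 0 x
  simp only [vadd_eq_add, add_zero] at h1
  exact h1

/-- the same in coordinates -/
theorem largest {K : Set E3} (hK : IsConvexBody K) : ∃ (v : Fin 4 → E3) (lam : Fin 4 → E3 → ℝ), (∀ i, v i ∈ K) ∧
    (∀ i, ∃ (l : E3 →L[ℝ] ℝ) (c : ℝ), ∀ x, lam i x = l x + c) ∧ (∀ i j, lam i (v j) = if i = j then 1 else 0) ∧
    (∀ x, ∑ i, lam i x = 1) ∧ (∀ x, ∑ i, lam i x • v i = x) ∧ (∀ x ∈ K, ∀ i, |lam i x| ≤ 1) ∧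
    (∀ p : Fin 4 → E3, volume (convexHull ℝ (range p)) =
      ENNReal.ofReal |(Matrix.of fun i j => lam j (p i)).det| * volume (convexHull ℝ (range v))) ∧
    ∀ p : Fin 4 → E3, (∀ i, p i ∈ K) → volume (convexHull ℝ (range p)) ≤ volume (convexHull ℝ (range v)) := by
  obtain ⟨b, h1, h2, h3⟩ := exists_max hK
  exact ⟨b, fun i => b.coord i, h1, fun i => coord_affine b i, fun i j => b.coord_apply i j,
    fun x => b.sum_coord_apply_eq_one x, fun x => b.linear_combination_coord_eq_self x, h2, fun p => vol_hull b p, h3⟩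

end Pool.Agent.Helper95.ML
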