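import Pool.Agent.Helper95.ML.Simplex

/-!
# The largest tetrahedron in a convex body, in affine coordinates
-/

set_option autoImplicit false

namespace Pool.Agent.Helper95.ML

open MeasureTheory Set
open Pool.Agent.Helper69.MD (E3 IsConvexBody)
open scoped ENNReal

/-- affine functions dual to four points are the barycentric coordinates of an affine basis -/
theorem frame_basis {lam : Fin 4 → E3 → ℝ} {t : Fin 4 → E3} (haff : ∀ i, ∃ (u : E3) (c : ℝ), ∀ x, lam i x = c + inner ℝ u x)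
    (hdiag : ∀ i j, lam j (t i) = if i = j then 1 else 0) :
    ∃ b : AffineBasis (Fin 4) ℝ E3, (b : Fin 4 → E3) = t ∧ ∀ i x, b.coord i x = lam i x := by
  have hcomb : ∀ (j : Fin 4) (w : Fin 4 → ℝ), ∃ c : ℝ, lam j (∑ i, w i • t i) = c * (1 - ∑ i, w i) + w j := by
    intro j w
    obtain ⟨u, c, h⟩ := haff j
    refine ⟨c, ?_⟩
    have h1 : ∀ i, inner ℝ u (t i) = (if i = j then 1 else 0) - c := by
      intro i
      have := h (t i)
      rw [hdiag] at this
      linarith
    rw [h, inner_sum]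
    simp_rw [real_inner_smul_right, h1, mul_sub]
    rw [Finset.sum_sub_distrib, ← Finset.sum_mul]
    simp
    ring
  have hind : AffineIndependent ℝ t := by
    rw [affineIndependent_iff_of_fintype]
    intro w hw hw2
    rw [Finset.weightedVSub_eq_linear_combination (s := Finset.univ) hw] at hw2
    intro j
    obtain ⟨u, c'', h''⟩ := haff j
    have h4 : lam j (∑ i, w i • t i) = c'' := by rw [hw2, h'']; simp
    have h5 : lam j (∑ i, w i • t i) = c'' * (1 - ∑ i, w i) + w j := by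
      have h1 : ∀ i, inner ℝ u (t i) = (if i = j then 1 else 0) - c'' := by
        intro i
        have := h'' (t i)
        rw [hdiag] at this
        linarith
      rw [h'', inner_sum]
      simp_rw [real_inner_smul_right, h1, mul_sub]
      rw [Finset.sum_sub_distrib, ← Finset.sum_mul]
      simp
      ring
    rw [h4, hw] at h5
    linarith
  have htot : affineSpan ℝ (range t) = ⊤ := by
    rw [hind.affineSpan_eq_top_iff_card_eq_finrank_add_one]
    simp
  refine ⟨⟨t, hind, htot⟩, rfl, fun j x => ?_⟩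
  set b : AffineBasis (Fin 4) ℝ E3 := ⟨t, hind, htot⟩ with hb
  obtain ⟨c, h⟩ := hcomb j (fun i => b.coord i x)
  have h1 : ∑ i, b.coord i x • t i = x := b.linear_combination_coord_eq_self x
  rw [h1, b.sum_coord_apply_eq_one, sub_self, mul_zero, zero_add] at h
  exact h.symm

/-- the simplex in affine coordinates -/
theorem tet_eq {lam : Fin 4 → E3 → ℝ} {t : Fin 4 → E3} (haff : ∀ i, ∃ (u : E3) (c : ℝ), ∀ x, lam i x = c + inner ℝ u x)
    (hdiag : ∀ i j, lam j (t i) = if i = j then 1 else 0) : {x | ∀ i, 0 ≤ lam i x} = convexHull ℝ (range t) := by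
  obtain ⟨b, hb, hc⟩ := frame_basis haff hdiag
  rw [← hb, b.convexHull_eq_nonneg_coord]
  ext x
  simp only [mem_setOf_eq, hc]

/-- volumes in affine coordinates -/
theorem vol_frame {lam : Fin 4 → E3 → ℝ} {t : Fin 4 → E3} (haff : ∀ i, ∃ (u : E3) (c : ℝ), ∀ x, lam i x = c + inner ℝ u x)
    (hdiag : ∀ i j, lam j (t i) = if i = j then 1 else 0) (p : Fin 4 → E3) :
    volume (convexHull ℝ (range p)) = ENNReal.ofReal |(Matrix.of fun i j => lam j (p i)).det| *
      volume {x | ∀ i, 0 ≤ lam i x} := by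
  obtain ⟨b, hb, hc⟩ := frame_basis haff hdiag
  have h1 : b.toMatrix p = Matrix.of fun i j => lam j (p i) := by
    ext i j
    rw [AffineBasis.toMatrix_apply, hc]
    rfl
  rw [vol_hull b p, h1, tet_eq haff hdiag, hb]

theorem vol_tet_pos {lam : Fin 4 → E3 → ℝ} {t : Fin 4 → E3} (haff : ∀ i, ∃ (u : E3) (c : ℝ), ∀ x, lam i x = c + inner ℝ u x)
    (hdiag : ∀ i j, lam j (t i) = if i = j then 1 else 0) :
    0 < volume {x | ∀ i, 0 ≤ lam i x} ∧ volume {x | ∀ i, 0 ≤ lam i x} < ∞ := by
  obtain ⟨b, hb, hc⟩ := frame_basis haff hdiag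
  rw [tet_eq haff hdiag, ← hb]
  exact ⟨vol_pos b, vol_lt_top _⟩

/-- **The largest tetrahedron.** -/
theorem largest' {K : Set E3} (hK : IsConvexBody K) : ∃ (lam : Fin 4 → E3 → ℝ) (t : Fin 4 → E3),
    (∀ i, ∃ (u : E3) (c : ℝ), ∀ x, lam i x = c + inner ℝ u x) ∧ (∀ i j, lam j (t i) = if i = j then 1 else 0) ∧
    (∀ x, ∑ i, lam i x = 1) ∧ (∀ i, t i ∈ K) ∧ (∀ x ∈ K, ∀ i, |lam i x| ≤ 1) ∧
    ∀ p : Fin 4 → E3, (∀ i, p i ∈ K) → volume (convexHull ℝ (range p)) ≤ volume {x | ∀ i, 0 ≤ lam i x} := by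
  obtain ⟨b, h1, h2, h3⟩ := exists_max hK
  refine ⟨fun i => b.coord i, b, fun i => ?_, fun i j => ?_, fun x => b.sum_coord_apply_eq_one x, h1, h2, fun p hp => ?_⟩
  · obtain ⟨l, c, h⟩ := coord_affine b i
    refine ⟨(InnerProductSpace.toDual ℝ E3).symm l, c, fun x => ?_⟩
    show b.coord i x = _
    rw [h, InnerProductSpace.toDual_symm_apply, add_comm]
  · show b.coord j (b i) = _
    rw [b.coord_apply]
    simp only [eq_comm]
  · have h4 := h3 p hp
    rw [b.convexHull_eq_nonneg_coord] at h4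
    exact h4

/-- affine functions with a nonzero determinant at four points are the coordinates of a simplex -/
theorem exists_frame {lam : Fin 4 → E3 → ℝ} {p : Fin 4 → E3} (haff : ∀ i, ∃ (u : E3) (c : ℝ), ∀ x, lam i x = c + inner ℝ u x)
    (hsum : ∀ x, ∑ i, lam i x = 1) (hdet : (Matrix.of fun i j => lam j (p i)).det ≠ 0) :
    ∃ t : Fin 4 → E3, ∀ i j, lam j (t i) = if i = j then 1 else 0 := by
  set M : Matrix (Fin 4) (Fin 4) ℝ := Matrix.of fun i j => lam j (p i) with hM
  have hu : IsUnit M.det := isUnit_iff_ne_zero.2 hdet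
  have h1 : M.mulVec 1 = 1 := by
    funext i
    simp only [Matrix.mulVec, dotProduct, Pi.one_apply, mul_one]
    exact hsum (p i)
  have h2 : M⁻¹.mulVec 1 = 1 := by
    conv_lhs => rw [← h1]
    rw [Matrix.mulVec_mulVec, Matrix.nonsing_inv_mul M hu, Matrix.one_mulVec]
  refine ⟨fun i => ∑ k, M⁻¹ i k • p k, fun i j => ?_⟩
  obtain ⟨u, c, h⟩ := haff j
  have h3 : ∑ k, M⁻¹ i k = 1 := by
    have := congrFun h2 i
    simpa [Matrix.mulVec, dotProduct] using this
  have h4 : (M⁻¹ * M) i j = if i = j then 1 else 0 := by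
    rw [Matrix.nonsing_inv_mul M hu, Matrix.one_apply]
  rw [← h4, Matrix.mul_apply, h, inner_sum]
  simp_rw [real_inner_smul_right]
  have h5 : ∀ k, M k j = c + inner ℝ u (p k) := fun k => h (p k)
  simp_rw [h5, mul_add]
  rw [Finset.sum_add_distrib, ← Finset.sum_mul, h3, one_mul]

end Pool.Agent.Helper95.ML
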